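import Pool.Agent.H6.LG.Defs

set_option autoImplicit false

/-!
PROJECT LG (MP_bf82d2_ag, LinearGrowth, note 6157), module AbAng (independent of everything).
PROOF. `ang_exp`: `Complex.arg_exp_mul_I` and `toIocMod` (`toIocMod hp a b = b - toIocDiv hp a b • p`), `Int.fract_sub_intCast`. `exp_ang`: `z = exp (arg z * I)` for
`‖z‖ = 1`, and `exp (2 π k I) = 1` for `k` an integer. The others follow: `z * w = exp (2 π (ang z + ang w) I)`, `conj z = exp (- 2 π (ang z) I)`,
`zeta o ^ a = exp (2 π (a / o) I)`; `Int.fract (a / o) = a / o` for `a < o`.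
-/

namespace Pool.Agent.H6.LG

open Pool.Agent.H82.CO (zeta)

theorem ang_nonneg (z : ℂ) : 0 ≤ ang z := Int.fract_nonneg _

theorem ang_lt (z : ℂ) : ang z < 1 := Int.fract_lt_one _

theorem ang_exp (t : ℝ) : ang (Complex.exp (2 * Real.pi * t * Complex.I)) = Int.fract t := by
  have h1 : (2 * (Real.pi : ℂ) * t * Complex.I) = ((2 * Real.pi * t : ℝ) : ℂ) * Complex.I := by
    push_cast
    ring
  unfold ang
  rw [h1, Complex.arg_exp_mul_I]
  unfold toIocMod
  have hp : (2 * Real.pi) ≠ 0 := by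
    have := Real.pi_pos
    positivity
  rw [zsmul_eq_mul, sub_div, mul_div_cancel_left₀ _ hp, mul_div_cancel_right₀ _ hp]
  exact Int.fract_sub_intCast t _

theorem exp_ang {z : ℂ} (hz : ‖z‖ = 1) : Complex.exp (2 * Real.pi * ang z * Complex.I) = z := by
  have h0 := Complex.norm_mul_exp_arg_mul_I z
  rw [hz, Complex.ofReal_one, one_mul] at h0
  have hp : (2 * Real.pi) ≠ 0 := by
    have := Real.pi_pos
    positivity
  obtain ⟨k, hk⟩ : ∃ k : ℤ, 2 * Real.pi * ang z = Complex.arg z - k * (2 * Real.pi) := by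
    refine ⟨⌊Complex.arg z / (2 * Real.pi)⌋, ?_⟩
    unfold ang Int.fract
    rw [mul_sub, mul_div_cancel₀ _ hp]
    ring
  have h1 : (2 * (Real.pi : ℂ) * ang z * Complex.I) =
      (Complex.arg z : ℂ) * Complex.I - k * (2 * Real.pi * Complex.I) := by
    have h2 : (2 * (Real.pi : ℂ) * ang z) = Complex.arg z - k * (2 * Real.pi) := by
      exact_mod_cast congrArg (fun x : ℝ => (x : ℂ)) hk
    rw [h2]
    ring
  rw [h1, Complex.exp_sub, Complex.exp_int_mul_two_pi_mul_I, div_one]
  exact h0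

theorem ang_mul {z w : ℂ} (hz : ‖z‖ = 1) (hw : ‖w‖ = 1) : ang (z * w) = Int.fract (ang z + ang w) := by
  have h1 : z * w = Complex.exp (2 * Real.pi * ((ang z + ang w : ℝ) : ℂ) * Complex.I) := by
    have h2 : (2 * (Real.pi : ℂ) * ((ang z + ang w : ℝ) : ℂ) * Complex.I) =
        2 * Real.pi * ang z * Complex.I + 2 * Real.pi * ang w * Complex.I := by
      push_cast
      ring
    rw [h2, Complex.exp_add, exp_ang hz, exp_ang hw]
  rw [h1, ang_exp]

theorem ang_conj {z : ℂ} (hz : ‖z‖ = 1) : ang ((starRingEnd ℂ) z) = if ang z = 0 then 0 else 1 - ang z := by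
  have h1 : (starRingEnd ℂ) z = Complex.exp (2 * Real.pi * ((-ang z : ℝ) : ℂ) * Complex.I) := by
    have h2 : (2 * (Real.pi : ℂ) * ((-ang z : ℝ) : ℂ) * Complex.I) =
        (starRingEnd ℂ) (2 * Real.pi * ang z * Complex.I) := by
      rw [map_mul, map_mul, map_mul, Complex.conj_I, Complex.conj_ofReal, Complex.conj_ofReal]
      have h3 : (starRingEnd ℂ) (2 : ℂ) = 2 := Complex.conj_ofNat 2
      rw [h3]
      push_cast
      ring
    rw [h2, Complex.exp_conj, exp_ang hz]
  rw [h1, ang_exp]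
  have h4 : Int.fract (ang z) = ang z := Int.fract_eq_self.2 ⟨ang_nonneg z, ang_lt z⟩
  by_cases h : ang z = 0
  · rw [if_pos h, h, neg_zero, Int.fract_zero]
  · rw [if_neg h, Int.fract_neg (by rwa [h4]), h4]

theorem ang_zeta {o a : ℕ} (ha : a < o) : ang (zeta o ^ a) = (a : ℝ) / o := by
  have ho : (0 : ℝ) < o := by
    have : 0 < o := by omega
    exact_mod_cast this
  have hoC : (o : ℂ) ≠ 0 := by exact_mod_cast ho.ne'
  have h1 : zeta o ^ a = Complex.exp (2 * Real.pi * (((a : ℝ) / o : ℝ) : ℂ) * Complex.I) := by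
    unfold zeta
    rw [← Complex.exp_nat_mul]
    congr 1
    push_cast
    field_simp
  rw [h1, ang_exp]
  refine Int.fract_eq_self.2 ⟨by positivity, ?_⟩
  rw [div_lt_one ho]
  exact_mod_cast ha

end Pool.Agent.H6.LG
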