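import Pool.Agent.H6.LG.AbAng
import Pool.Agent.H6.FF.IrrA
import Pool.Agent.H6.FF.IrrC
import Pool.Agent.H6.FF.IrrE
import Pool.Agent.H6.FF.Eig

set_option autoImplicit false

/-!
PROJECT LG (MP_bf82d2_ag, LinearGrowth, note 6157), module AbChr.  `G` abelian: the multiplicities.
PROOF. `lin_ab`: `deg_one_of_comm` and `lin_of_deg`. `angs_ab`: `eig` with `d = 1` (as `ψ 1 = 1`): `ψ (c ^ k) = zeta o ^ (t * k)`, `t < o`; `angs_eq`: `angs ψ c o = t / o`;
`ψ c = zeta o ^ t`, `ang_zeta`. `ip_ab`: unfold `chi`; `∑ g, conj (ψ g) = n` if `ψ = 1` and `0` otherwise (`ip_self`, `ip_ne` with the character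
`fun _ => 1`, `irr_lin`); `∑ g, n [g = 1] conj (ψ g) = n`; exchange the sums in the last term: `ψ (x s_i^k x⁻¹) = ψ (s_i^k)` (`cl_of_irr`), so it is
`n * ∑ i, angs ψ (s i) (orderOf (s i))`.
-/

namespace Pool.Agent.H6.LG

open Finset Module Pool.Agent.H6.FF
open Pool.Agent.H82.CO (chi quadInv nu genus eps zeta)

variable {G : Type} [Group G] [Fintype G] {N : ℕ}

theorem lin_ab (hab : ∀ a b : G, a * b = b * a) {ψ : G → ℂ} (hψ : ψ ∈ irr G) : IsLin ψ :=
  lin_of_deg (mem_irr.1 hψ) (deg_one_of_comm hab (mem_irr.1 hψ))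

theorem angs_ab {ψ : G → ℂ} (hψ : IsLin ψ) (c : G) : angs ψ c (orderOf c) = (ang (ψ c) : ℂ) := by
  have ho : 0 < orderOf c := orderOf_pos c
  obtain ⟨d, t, h1, ht, hk⟩ := eig (irr_lin hψ) c ho (pow_orderOf_eq_one c)
  have hd : d = 1 := by
    rw [hψ.1] at h1
    exact_mod_cast h1.symm
  subst hd
  rw [angs_eq ho ht hk, Fin.sum_univ_one]
  have h2 := hk 1
  rw [pow_one, Fin.sum_univ_one, mul_one] at h2
  rw [h2, ang_zeta (ht 0)]

open Classical in
theorem ip_ab (s : Fin N → G) {ψ : G → ℂ} (hψ : IsLin ψ) :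
    ip (chi s) ψ = (if ψ = (fun _ => 1) then 1 else 0) - 1 + ∑ i, (ang (ψ (s i)) : ℂ) := by
  have hn : (Nat.card G : ℂ) ≠ 0 := by exact_mod_cast Nat.card_pos.ne'
  have hψi : IsIrr ψ := irr_lin hψ
  have hone : IsLin (fun _ : G => (1 : ℂ)) := ⟨rfl, fun _ _ => (mul_one 1).symm, fun _ => norm_one⟩
  -- the trivial part
  have h1 : ∑ g : G, (starRingEnd ℂ) (ψ g) = (Nat.card G : ℂ) * (if ψ = (fun _ => 1) then 1 else 0) := by
    have h2 : (Nat.card G : ℂ) * ip (fun _ : G => (1 : ℂ)) ψ = ∑ g : G, (starRingEnd ℂ) (ψ g) := by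
      unfold ip
      rw [← mul_assoc, mul_one_div_cancel hn, one_mul]
      exact sum_congr rfl fun g _ => one_mul _
    rw [← h2]
    by_cases h : ψ = (fun _ => 1)
    · rw [if_pos h, h, ip_self (irr_lin hone)]
    · rw [if_neg h, ip_ne (irr_lin hone) hψi (fun hh => h hh.symm)]
  -- the regular part
  have h3 : ∑ g : G, (if g = 1 then (Nat.card G : ℂ) else 0) * (starRingEnd ℂ) (ψ g) = Nat.card G := by
    rw [sum_eq_single 1]
    · rw [if_pos rfl, hψ.1, map_one, mul_one]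
    · intro g _ hg
      rw [if_neg hg, zero_mul]
    · intro h
      exact absurd (mem_univ _) h
  -- the induced part
  have h4 : ∑ g : G, (∑ i, (1 / (orderOf (s i) : ℂ)) * ∑ x : G, ∑ k ∈ range (orderOf (s i)),
      if x * s i ^ k * x⁻¹ = g then eps (orderOf (s i)) k else 0) * (starRingEnd ℂ) (ψ g) =
      (Nat.card G : ℂ) * ∑ i, (ang (ψ (s i)) : ℂ) := by
    rw [mul_sum]
    simp_rw [sum_mul]
    rw [sum_comm]
    refine sum_congr rfl fun i _ => ?_
    rw [← angs_ab hψ (s i)]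
    unfold angs
    have h5 : ∀ g : G, (1 / (orderOf (s i) : ℂ)) * (∑ x : G, ∑ k ∈ range (orderOf (s i)),
        if x * s i ^ k * x⁻¹ = g then eps (orderOf (s i)) k else 0) * (starRingEnd ℂ) (ψ g) =
        (1 / (orderOf (s i) : ℂ)) * ∑ x : G, ∑ k ∈ range (orderOf (s i)),
        if x * s i ^ k * x⁻¹ = g then eps (orderOf (s i)) k * (starRingEnd ℂ) (ψ g) else 0 := by
      intro g
      rw [mul_assoc, sum_mul]
      congr 1
      refine sum_congr rfl fun x _ => ?_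
      rw [sum_mul]
      refine sum_congr rfl fun k _ => ?_
      rw [ite_mul, zero_mul]
    rw [sum_congr rfl fun g _ => h5 g, ← mul_sum, sum_comm]
    have h6 : ∀ x : G, (∑ g : G, ∑ k ∈ range (orderOf (s i)),
        if x * s i ^ k * x⁻¹ = g then eps (orderOf (s i)) k * (starRingEnd ℂ) (ψ g) else 0) =
        ∑ k ∈ range (orderOf (s i)), eps (orderOf (s i)) k * (starRingEnd ℂ) (ψ (s i ^ k)) := by
      intro x
      rw [sum_comm]
      refine sum_congr rfl fun k _ => ?_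
      rw [sum_ite_eq univ (x * s i ^ k * x⁻¹), if_pos (mem_univ _), cl_of_irr hψi (s i ^ k) x]
    rw [sum_congr rfl fun x _ => h6 x, sum_const, card_univ, nsmul_eq_mul, Nat.card_eq_fintype_card]
    ring
  unfold ip
  have h7 : ∀ g : G, chi s g * (starRingEnd ℂ) (ψ g) = (starRingEnd ℂ) (ψ g) -
      (if g = 1 then (Nat.card G : ℂ) else 0) * (starRingEnd ℂ) (ψ g) +
      (∑ i, (1 / (orderOf (s i) : ℂ)) * ∑ x : G, ∑ k ∈ range (orderOf (s i)),
        if x * s i ^ k * x⁻¹ = g then eps (orderOf (s i)) k else 0) * (starRingEnd ℂ) (ψ g) := by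
    intro g
    unfold chi
    ring
  rw [sum_congr rfl fun g _ => h7 g, sum_add_distrib, sum_sub_distrib, h1, h3, h4]
  field_simp

end Pool.Agent.H6.LG
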