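import Pool.Agent.H6.FF.FS
import Pool.Agent.H6.FF.Sta
import Pool.Agent.H6.FF.IrrB
import Pool.Agent.H6.FF.IrrC
import Pool.Agent.H6.FF.IrrD
import Pool.Agent.H11.GQ.Rep

set_option autoImplicit false

/-!
PROJECT LG (MP_bf82d2_ag, LinearGrowth, note 6157), module AbFS.  `G` abelian: `d + e = ∑ m m'`, `d ≥ e`.
PROOF. `f = chi s` is the trace of a representation (`Pool.Agent.H11.GQ.exists_chi`), so `ip f ψ = m ψ` is a natural number (`mult_nat`); `f` is a class function.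
`(quadInv s + extInv s) = (1 / n) ∑ x, f x ^ 2 = ∑ ψ ∈ irr G, ip f ψ * ip f (cj ψ)` (the private lemma `sq_Sta` in `Pool/Agent/H6/FF/Sta.lean`; copy it).
`(quadInv s - extInv s) = (1 / n) ∑ x, f (x ^ 2) = ∑ ψ, m ψ * (1 / n) ∑ x, ψ (x * x)` (`expand`, or `fs_Sta` with `τ = MulEquiv.refl G`, `z = 1`), and
`ψ (x * x) = ψ x ^ 2` is multiplicative of absolute value `1`, so `(1 / n) ∑ x, ψ (x * x)` is `0` or `1` (`irr_lin`, `ip_self`, `ip_ne`), so `≥ 0`: hence `e ≤ d`.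
-/

namespace Pool.Agent.H6.LG

open Finset Module Pool.Agent.H6.FF
open Pool.Agent.H82.CO (chi quadInv extInv nu genus eps zeta)

variable {G : Type} [Group G] [Fintype G] {N : ℕ}

private theorem ip_cj_AbFS (f ψ : G → ℂ) : (starRingEnd ℂ) (ip (cj f) ψ) = ip f (cj ψ) := by
  unfold ip cj
  rw [map_mul, map_sum]
  have h1 : (starRingEnd ℂ) (1 / (Nat.card G : ℂ)) = 1 / (Nat.card G : ℂ) := by
    rw [map_div₀, map_one, Complex.conj_natCast]
  rw [h1]
  refine congrArg _ (Finset.sum_congr rfl fun x _ => ?_)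
  rw [map_mul, Complex.conj_conj]

private theorem sq_AbFS {f : G → ℂ} (hf : IsCl f) :
    (1 / (Nat.card G : ℂ)) * ∑ x, f x ^ 2 = ∑ ψ ∈ irr G, ip f ψ * ip f (cj ψ) := by
  have hcl : IsCl (cj f) := fun g x => by simp only [cj]; rw [hf g x]
  have h1 := parseval hf hcl
  have h2 : ip f (cj f) = (1 / (Nat.card G : ℂ)) * ∑ x, f x ^ 2 := by
    unfold ip cj
    refine congrArg _ (Finset.sum_congr rfl fun x _ => ?_)
    rw [Complex.conj_conj, sq]
  rw [← h2, h1]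
  exact Finset.sum_congr rfl fun ψ _ => by rw [ip_cj_AbFS]

/-- the mean of `ψ (x ^ 2)` -/
private theorem mean_AbFS {ψ : G → ℂ} (hψ : IsLin ψ) :
    (1 / (Nat.card G : ℂ)) * ∑ x, ψ (x ^ 2) = 0 ∨ (1 / (Nat.card G : ℂ)) * ∑ x, ψ (x ^ 2) = 1 := by
  have h1 : IsLin (tw ψ ψ) := by
    refine ⟨?_, ?_, ?_⟩
    · simp only [tw, hψ.1, mul_one]
    · intro x y
      simp only [tw, hψ.2.1 x y]
      ring
    · intro x
      simp only [tw, norm_mul, hψ.2.2 x, mul_one]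
  have h2 : IsLin (fun _ : G => (1 : ℂ)) := ⟨rfl, fun x y => by simp, fun x => by simp⟩
  have h3 : (1 / (Nat.card G : ℂ)) * ∑ x, ψ (x ^ 2) = ip (tw ψ ψ) (fun _ => 1) := by
    unfold ip
    refine congrArg _ (Finset.sum_congr rfl fun x _ => ?_)
    rw [map_one, mul_one, sq, hψ.2.1]
    rfl
  rw [h3]
  by_cases h4 : tw ψ ψ = fun _ => 1
  · right
    rw [h4]
    exact ip_self (irr_lin h2)
  · left
    exact ip_ne (irr_lin h1) (irr_lin h2) h4

private theorem sqm_AbFS {f : G → ℂ} (hf : IsCl f) :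
    (1 / (Nat.card G : ℂ)) * ∑ x, f (x ^ 2) =
      ∑ ψ ∈ irr G, ip f ψ * ((1 / (Nat.card G : ℂ)) * ∑ x, ψ (x ^ 2)) := by
  have h1 : ∀ x : G, f (x ^ 2) = ∑ ψ ∈ irr G, ip f ψ * ψ (x ^ 2) := fun x => expand hf _
  rw [Finset.sum_congr rfl fun x _ => h1 x, Finset.sum_comm, Finset.mul_sum]
  refine Finset.sum_congr rfl fun ψ _ => ?_
  rw [← Finset.mul_sum]
  ring

theorem sum_mm (s : Fin N → G) (hlin : ∀ ψ ∈ irr G, IsLin ψ) (hprod : (List.ofFn s).prod = 1)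
    (hgen : Subgroup.closure (Set.range s) = ⊤) :
    ∃ m : (G → ℂ) → ℕ, (∀ ψ ∈ irr G, ip (chi s) ψ = m ψ) ∧
      ∑ ψ ∈ irr G, (m ψ : ℝ) * m (cj ψ) = (quadInv s + extInv s).re ∧
      (quadInv s + extInv s).re ≤ 2 * (quadInv s).re := by
  classical
  obtain ⟨E, i1, i2, i3, σ, hσ, -⟩ := Pool.Agent.H11.GQ.exists_chi s hprod hgen
  have hσ' : (fun x => LinearMap.trace ℂ E (σ x)) = chi s := funext hσ
  have hcl : IsCl (chi s) := by
    intro g x
    exact Pool.Agent.H52.VC.chi_conj s g x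
  have hm : ∀ ψ : G → ℂ, ∃ m : ℕ, IsIrr ψ → ip (chi s) ψ = m := by
    intro ψ
    by_cases h : IsIrr ψ
    · obtain ⟨m, h1⟩ := mult_nat σ h
      rw [hσ'] at h1
      exact ⟨m, fun _ => h1⟩
    · exact ⟨0, fun h' => absurd h' h⟩
  choose m hm using hm
  have hn : (Nat.card G : ℂ) ≠ 0 := by
    have : 0 < Nat.card G := Nat.card_pos
    exact_mod_cast this.ne'
  have e1 : quadInv s + extInv s = (1 / (Nat.card G : ℂ)) * ∑ x, chi s x ^ 2 := by
    unfold quadInv extInv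
    rw [← mul_add, ← Finset.sum_add_distrib]
    have h1 : ∀ x : G, chi s x ^ 2 + chi s (x ^ 2) + (chi s x ^ 2 - chi s (x ^ 2)) = 2 * chi s x ^ 2 := fun x => by ring
    rw [Finset.sum_congr rfl fun x _ => h1 x, ← Finset.mul_sum]
    field_simp
  have e2 : quadInv s - extInv s = (1 / (Nat.card G : ℂ)) * ∑ x, chi s (x ^ 2) := by
    unfold quadInv extInv
    rw [← mul_sub, ← Finset.sum_sub_distrib]
    have h1 : ∀ x : G, chi s x ^ 2 + chi s (x ^ 2) - (chi s x ^ 2 - chi s (x ^ 2)) = 2 * chi s (x ^ 2) := fun x => by ring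
    rw [Finset.sum_congr rfl fun x _ => h1 x, ← Finset.mul_sum]
    field_simp
  refine ⟨m, fun ψ hψ => hm ψ (mem_irr.1 hψ), ?_, ?_⟩
  · rw [e1, sq_AbFS hcl, Complex.re_sum]
    refine Finset.sum_congr rfl fun ψ hψ => ?_
    rw [hm ψ (mem_irr.1 hψ), hm (cj ψ) (irr_cj (mem_irr.1 hψ))]
    simp
  · have h1 : 0 ≤ (quadInv s - extInv s).re := by
      rw [e2, sqm_AbFS hcl, Complex.re_sum]
      refine Finset.sum_nonneg fun ψ hψ => ?_
      rw [hm ψ (mem_irr.1 hψ)]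
      rcases mean_AbFS (hlin ψ hψ) with h | h <;> rw [h] <;> simp
    rw [Complex.sub_re] at h1
    rw [Complex.add_re]
    linarith

end Pool.Agent.H6.LG
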