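import Pool.Agent.H6.LG.AbAng
import Pool.Agent.H6.FF.IrrA
import Pool.Agent.H6.FF.IrrB
import Pool.Agent.H6.FF.Eig

set_option autoImplicit false

/-!
PROJECT LG (MP_bf82d2_ag, LinearGrowth, note 6157), module AbMean.  `G` abelian: the mean of `qq (ang (ψ c))`.
PROOF. `o = orderOf c`, `n = |G|`. For every `ψ ∈ irr G`: `ψ c = zeta o ^ a` with `a < o` (`eig` with `d = 1`), so `qq (ang (ψ c)) = ∑ a < o, qq (a / o) * [ψ c = zeta o ^ a]`
(`ang_zeta`; the `zeta o ^ a`, `a < o`, are different) and `[ψ c = zeta o ^ a] = (1 / o) ∑ k < o, ψ (c ^ k) * conj (zeta o ^ (a * k))` (geometric sum). By `reg_sum`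
(`ψ 1 = 1`) `∑ ψ, ψ (c ^ k) = n` if `k = 0` and `0` for `0 < k < o`. So `∑ ψ, qq (ang (ψ c)) = (n / o) ∑ a < o, qq (a / o) = (n / o) (o ^ 2 - 1) / (6 o)`
(`Pool.Agent.H92.OG.sum_id_range`, `sum_sq_range`, or induction).
-/

namespace Pool.Agent.H6.LG

open Finset Module Pool.Agent.H6.FF
open Pool.Agent.H82.CO (chi quadInv nu genus eps zeta)

variable {G : Type} [Group G] [Fintype G] {N : ℕ}

private theorem sum_AbMean (o m : ℕ) : ∑ b ∈ range m, qq ((b : ℝ) / o) =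
    (m : ℝ) * (m - 1) / 2 / o - (m - 1) * m * (2 * m - 1) / 6 / (o : ℝ) ^ 2 := by
  induction m with
  | zero => simp
  | succ m ih =>
    rw [sum_range_succ, ih, qq]
    push_cast
    ring

theorem mean_ab (hlin : ∀ ψ ∈ irr G, IsLin ψ) (c : G) :
    ∑ ψ ∈ irr G, qq (ang (ψ c)) = (Nat.card G : ℝ) * (1 - 1 / (orderOf c : ℝ) ^ 2) / 6 := by
  classical
  have ho : 0 < orderOf c := orderOf_pos c
  obtain ⟨o, hoo⟩ : ∃ o, o = orderOf c := ⟨_, rfl⟩
  rw [← hoo] at ho ⊢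
  have hoC : (o : ℂ) ≠ 0 := by exact_mod_cast ho.ne'
  have hoR : (o : ℝ) ≠ 0 := by exact_mod_cast ho.ne'
  have hco : c ^ o = 1 := by
    rw [hoo]
    exact pow_orderOf_eq_one c
  have h1 : ∀ ψ ∈ irr G, ∃ a < o, ∀ k : ℕ, ψ (c ^ k) = zeta o ^ (a * k) := by
    intro ψ hψ
    obtain ⟨d, t, hd, ht, hk⟩ := eig (mem_irr.1 hψ) c ho hco
    have hd1 : d = 1 := by
      rw [(hlin ψ hψ).1] at hd
      exact_mod_cast hd.symm
    subst hd1
    exact ⟨t 0, ht 0, fun k => by rw [hk, Fin.sum_univ_one]⟩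
  have h2 : ∀ ψ ∈ irr G, ((qq (ang (ψ c)) : ℝ) : ℂ) = ∑ b ∈ range o, ((qq ((b : ℝ) / o) : ℝ) : ℂ) *
      ((1 / (o : ℂ)) * ∑ k ∈ range o, ψ (c ^ k) * (starRingEnd ℂ) (zeta o ^ (b * k))) := by
    intro ψ hψ
    obtain ⟨a, ha, hk⟩ := h1 ψ hψ
    have h3 : ψ c = zeta o ^ a := by
      have := hk 1
      rwa [pow_one, mul_one] at this
    rw [h3, ang_zeta ha]
    have h4 : ∀ b ∈ range o, ((qq ((b : ℝ) / o) : ℝ) : ℂ) *
        ((1 / (o : ℂ)) * ∑ k ∈ range o, ψ (c ^ k) * (starRingEnd ℂ) (zeta o ^ (b * k))) =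
        if b = a then ((qq ((b : ℝ) / o) : ℝ) : ℂ) else 0 := by
      intro b hb
      have h11 : ∑ k ∈ range o, ψ (c ^ k) * (starRingEnd ℂ) (zeta o ^ (b * k)) =
          ∑ k ∈ range o, zeta o ^ (a * k) * (starRingEnd ℂ) (zeta o ^ (b * k)) :=
        sum_congr rfl fun k _ => by rw [hk k]
      rw [h11, Pool.Agent.H82.CO.ortho ho ha (mem_range.1 hb)]
      by_cases hab : b = a
      · rw [if_pos hab.symm, if_pos hab, one_div, inv_mul_cancel₀ hoC, mul_one]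
      · rw [if_neg (fun h => hab h.symm), if_neg hab, mul_zero, mul_zero]
    rw [sum_congr rfl h4, sum_ite_eq' (range o) a, if_pos (mem_range.2 ha)]
  have h5 : ∀ k < o, ∑ ψ ∈ irr G, ψ (c ^ k) = if k = 0 then (Nat.card G : ℂ) else 0 := by
    intro k hk
    have h6 := reg_sum (c ^ k)
    have h12 : ∑ ψ ∈ irr G, ψ 1 * ψ (c ^ k) = ∑ ψ ∈ irr G, ψ (c ^ k) :=
      sum_congr rfl fun ψ hψ => by rw [(hlin ψ hψ).1, one_mul]
    rw [← h12, h6]
    by_cases h0 : k = 0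
    · rw [if_pos h0, h0, pow_zero, if_pos rfl]
    · have h7 : c ^ k ≠ 1 := by
        rw [hoo] at hk
        exact pow_ne_one_of_lt_orderOf h0 hk
      rw [if_neg h0, if_neg h7]
  have h8 : ((∑ ψ ∈ irr G, qq (ang (ψ c)) : ℝ) : ℂ) =
      (((Nat.card G : ℝ) / o * ∑ b ∈ range o, qq ((b : ℝ) / o) : ℝ) : ℂ) := by
    rw [Complex.ofReal_sum, sum_congr rfl h2, sum_comm]
    push_cast
    rw [mul_sum]
    refine sum_congr rfl fun b _ => ?_
    rw [← mul_sum, ← mul_sum, sum_comm]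
    have h9 : ∀ k ∈ range o, ∑ ψ ∈ irr G, ψ (c ^ k) * (starRingEnd ℂ) (zeta o ^ (b * k)) =
        if k = 0 then (Nat.card G : ℂ) else 0 := by
      intro k hk
      rw [← sum_mul, h5 k (mem_range.1 hk)]
      by_cases h0 : k = 0
      · rw [if_pos h0, h0, mul_zero, pow_zero, map_one, mul_one]
      · rw [if_neg h0, zero_mul]
    rw [sum_congr rfl h9, sum_ite_eq' (range o) 0, if_pos (mem_range.2 ho)]
    ring
  have h10 : ∑ ψ ∈ irr G, qq (ang (ψ c)) = (Nat.card G : ℝ) / o * ∑ b ∈ range o, qq ((b : ℝ) / o) := by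
    exact_mod_cast h8
  rw [h10, sum_AbMean]
  field_simp
  ring

end Pool.Agent.H6.LG
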