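import Pool.Agent.H6.LG.AbNum
import Pool.Agent.H6.LG.AbChr
import Pool.Agent.H6.LG.AbMean
import Pool.Agent.H6.LG.AbFS
import Pool.Agent.H82.SQ.Cor

set_option autoImplicit false

/-!
PROJECT LG (MP_bf82d2_ag, LinearGrowth, note 6157), module AbFour.  `G` abelian, `N = 4` and `N = 5`.
PROOF. `N = 4`: `lin_ab`, `sum_mm`. For `ψ ∈ irr G`, `ψ ≠ 1`: `t i = ang (ψ (s i))`, `∑ t i = m ψ + 1` (`ip_ab`), and the same for `cj ψ` with `ang_conj`
(`irr_cj`); `ψ (s 0) * ψ (s b) = ψ (s 0 * s b)`, `ang_mul`; so by `num4` `∑ i, qq (ang (ψ (s i))) - ∑ b ∈ {1,2,3}, qq (ang (ψ (s 0 * s b))) ≤ m ψ * m (cj ψ)`; for `ψ = 1` the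
left side is `0`. Sum over `ψ` with `mean_ab`: `(n / 6) (∑ i, (1 - 1 / m_i ^ 2) - ∑ b, (1 - 1 / o_b ^ 2)) ≤ d + e ≤ 2 d`, so
`(n / 6) (1 - ∑ i, 1 / m_i ^ 2) ≤ 2 d`. All `m_i ≥ 2` and, as `genus > 1`, i.e. `nu > 2` (`genus_eq`), some `m_i ≥ 3`: `∑ 1 / m_i ^ 2 ≤ 3 / 4 + 1 / 9`, `d ≥ 5 n / 432`.
`N = 5`: `tensor_five`: `n / 16 - 1 ≤ d + e ≤ 2 d` (`sum_mm`).
-/

namespace Pool.Agent.H6.LG

open Finset Module Pool.Agent.H6.FF
open Pool.Agent.H82.CO (chi quadInv extInv nu genus eps zeta)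

variable {G : Type} [Group G] [Fintype G]

omit [Fintype G] in
private theorem norm_AbFour {ψ : G → ℂ} (h : IsLin ψ) (g : G) : ‖ψ g‖ = 1 := h.2.2 g

private theorem ang_one_AbFour : ang 1 = 0 := by
  rw [ang, Complex.arg_one, zero_div, Int.fract_zero]

open Classical in
private theorem term_AbFour (s : Fin 4 → G) (m : (G → ℂ) → ℕ) (hab : ∀ a b : G, a * b = b * a)
    (hm : ∀ ψ ∈ irr G, ip (chi s) ψ = m ψ) {ψ : G → ℂ} (hψ : ψ ∈ irr G) :
    ∑ i, qq (ang (ψ (s i))) - (qq (ang (ψ (s 0 * s 1))) + qq (ang (ψ (s 0 * s 2)))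
      + qq (ang (ψ (s 0 * s 3)))) ≤ (m ψ : ℝ) * m (cj ψ) := by
  have hl : IsLin ψ := lin_ab hab hψ
  have hψ' : cj ψ ∈ irr G := mem_irr.2 (irr_cj (mem_irr.1 hψ))
  have hl' : IsLin (cj ψ) := lin_ab hab hψ'
  by_cases h1 : ψ = fun _ => 1
  · have e : ∀ g, qq (ang (ψ g)) = 0 := by
      intro g
      rw [h1, ang_one_AbFour, qq, zero_mul]
    rw [e, e, e, Finset.sum_eq_zero fun i _ => e (s i)]
    have h2 : (0 : ℝ) ≤ (m ψ : ℝ) * m (cj ψ) := mul_nonneg (Nat.cast_nonneg _) (Nat.cast_nonneg _)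
    linarith
  · have h1' : cj ψ ≠ fun _ => 1 := by
      intro h
      apply h1
      funext x
      have h2 : (starRingEnd ℂ) (ψ x) = 1 := congrFun h x
      rw [← Complex.conj_conj (ψ x), h2, map_one]
    have e1 : ∑ i, ang (ψ (s i)) = (m ψ : ℝ) + 1 := by
      have h2 := ip_ab s hl
      rw [hm ψ hψ, if_neg h1] at h2
      have h3 : ((∑ i, ang (ψ (s i)) : ℝ) : ℂ) = (((m ψ : ℝ) + 1 : ℝ) : ℂ) := by
        push_cast
        rw [h2]
        ring
      exact Complex.ofReal_injective h3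
    have e2 : ∑ i, (if ang (ψ (s i)) = 0 then 0 else 1 - ang (ψ (s i)))
        = (m (cj ψ) : ℝ) + 1 := by
      have h2 := ip_ab s hl'
      rw [hm (cj ψ) hψ', if_neg h1'] at h2
      have h3 : ((∑ i, ang (cj ψ (s i)) : ℝ) : ℂ) = (((m (cj ψ) : ℝ) + 1 : ℝ) : ℂ) := by
        push_cast
        rw [h2]
        ring
      rw [← Complex.ofReal_injective h3]
      refine Finset.sum_congr rfl fun i _ => ?_
      exact (ang_conj (norm_AbFour hl (s i))).symm
    have e3 : ∀ b : Fin 4, ang (ψ (s 0 * s b)) = Int.fract (ang (ψ (s 0)) + ang (ψ (s b))) := by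
      intro b
      rw [hl.2.1, ang_mul (norm_AbFour hl _) (norm_AbFour hl _)]
    rw [e3, e3, e3]
    exact num4 (fun i => ang (ψ (s i))) (fun i => ang_nonneg _) (fun i => ang_lt _) e1 e2

theorem ab_four (s : Fin 4 → G) (hs : ∀ i, s i ≠ 1) (hab : ∀ a b : G, a * b = b * a) (hprod : (List.ofFn s).prod = 1)
    (hgen : Subgroup.closure (Set.range s) = ⊤) (hg : 1 < genus s) :
    5 / 432 * (Nat.card G : ℝ) ≤ (quadInv s).re := by
  have hlin : ∀ ψ ∈ irr G, IsLin ψ := fun ψ h => lin_ab hab h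
  obtain ⟨m, hm, hsum, hle⟩ := sum_mm s hlin hprod hgen
  have hn : (0 : ℝ) < Nat.card G := by exact_mod_cast Nat.card_pos
  have hmean := fun c => mean_ab hlin c
  have h1 := Finset.sum_le_sum fun ψ (hψ : ψ ∈ irr G) => term_AbFour s m hab hm hψ
  rw [Finset.sum_sub_distrib, Finset.sum_add_distrib, Finset.sum_add_distrib, Finset.sum_comm,
    hmean, hmean, hmean, Finset.sum_congr rfl fun i _ => hmean (s i), hsum] at h1
  have hm2 : ∀ i, (2 : ℝ) ≤ orderOf (s i) := fun i => by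
    exact_mod_cast Pool.Agent.H82.CO.order_ge s hs i
  have h3 : ∃ i, 3 ≤ orderOf (s i) := by
    by_contra hne
    push Not at hne
    have h4 : ∀ i, orderOf (s i) = 2 := by
      intro i
      have h5 := hne i
      have h6 := Pool.Agent.H82.CO.order_ge s hs i
      omega
    have h7 : genus s = 1 := by
      rw [genus, Finset.sum_congr rfl fun i _ => by rw [h4 i]]
      norm_num
    linarith
  obtain ⟨i₀, hi₀⟩ := h3
  have h4 : ∑ i, 1 / (orderOf (s i) : ℝ) ^ 2 ≤ 31 / 36 := by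
    have h5 : ∀ i ∈ (univ : Finset (Fin 4)), 1 / (orderOf (s i) : ℝ) ^ 2
        ≤ 1 / 4 - if i = i₀ then 5 / 36 else 0 := by
      intro i _
      by_cases h6 : i = i₀
      · have h7 : (3 : ℝ) ≤ orderOf (s i) := by
          rw [h6]
          exact_mod_cast hi₀
        rw [if_pos h6, div_le_iff₀ (by positivity)]
        nlinarith
      · rw [if_neg h6, sub_zero, div_le_iff₀ (by have := hm2 i; positivity)]
        have := hm2 i
        nlinarith
    refine (Finset.sum_le_sum h5).trans (le_of_eq ?_)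
    rw [Finset.sum_sub_distrib, Finset.sum_ite_eq', if_pos (mem_univ _)]
    simp only [sum_const, card_univ, Fintype.card_fin, nsmul_eq_mul]
    norm_num
  have h5 : ∀ g : G, (Nat.card G : ℝ) * (1 - 1 / (orderOf g : ℝ) ^ 2) / 6 ≤ (Nat.card G : ℝ) / 6 := by
    intro g
    have h6 : (0 : ℝ) ≤ 1 / (orderOf g : ℝ) ^ 2 := by positivity
    have h7 : (Nat.card G : ℝ) * (1 - 1 / (orderOf g : ℝ) ^ 2) ≤ (Nat.card G : ℝ) * 1 :=
      mul_le_mul_of_nonneg_left (by linarith) hn.le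
    linarith
  have h6 : ∑ i, (Nat.card G : ℝ) * (1 - 1 / (orderOf (s i) : ℝ) ^ 2) / 6
      = (Nat.card G : ℝ) / 6 * (4 - ∑ i, 1 / (orderOf (s i) : ℝ) ^ 2) := by
    rw [mul_sub, Finset.mul_sum]
    have h7 : (Nat.card G : ℝ) / 6 * 4 = ∑ _i : Fin 4, (Nat.card G : ℝ) / 6 := by
      simp only [sum_const, card_univ, Fintype.card_fin, nsmul_eq_mul]
      norm_num
      ring
    rw [h7, ← Finset.sum_sub_distrib]
    exact Finset.sum_congr rfl fun i _ => by ring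
  rw [h6] at h1
  have h7 := h5 (s 0 * s 1)
  have h8 := h5 (s 0 * s 2)
  have h9 := h5 (s 0 * s 3)
  have h10 : (Nat.card G : ℝ) / 6 * (4 - 31 / 36)
      ≤ (Nat.card G : ℝ) / 6 * (4 - ∑ i, 1 / (orderOf (s i) : ℝ) ^ 2) :=
    mul_le_mul_of_nonneg_left (by linarith) (by positivity)
  linarith

theorem ab_five (s : Fin 5 → G) (hs : ∀ i, s i ≠ 1) (hab : ∀ a b : G, a * b = b * a) (hprod : (List.ofFn s).prod = 1)
    (hgen : Subgroup.closure (Set.range s) = ⊤) :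
    (Nat.card G : ℝ) / 32 - 1 / 2 ≤ (quadInv s).re := by
  have hlin : ∀ ψ ∈ irr G, IsLin ψ := fun ψ h => lin_ab hab h
  obtain ⟨_, _, _, hle⟩ := sum_mm s hlin hprod hgen
  have h := Pool.Agent.H82.CO.tensor_five s hs
  linarith

end Pool.Agent.H6.LG
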