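import Pool.Agent.H6.LG.Defs

set_option autoImplicit false

/-!
PROJECT LG (MP_bf82d2_ag, LinearGrowth, note 6157), module AbNum (independent of everything; only real numbers).
PROOF. `0 ≤ qq (fract x)`, `qq (t i) ≤ 1 / 4`. If `1 ≤ m`, `1 ≤ m'`: left side `≤ 1 ≤ m m'`. If `m = 0`: `∑ t i = 1`, `t i ≥ 0`, so `0 ≤ t 0 + t b ≤ 1` and
`qq (fract (t 0 + t b)) = qq (t 0 + t b)` (if `t 0 + t b = 1` both are `0`); then the left side is `0`: `t 3 = 1 - t 0 - t 1 - t 2` and `ring`. If `m' = 0`: the same for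
`u i = if t i = 0 then 0 else 1 - t i` (`qq (u i) = qq (t i)`; `u 0 + u b` is an integer minus `(t 0 + t b)` and `qq (fract (- x)) = qq (fract x)`,
`Int.fract_neg`).
-/

namespace Pool.Agent.H6.LG

private theorem fr_AbNum {x : ℝ} (h0 : 0 ≤ x) (h1 : x ≤ 1) : qq (Int.fract x) = qq x := by
  rcases eq_or_lt_of_le h1 with h | h
  · rw [h, Int.fract_one]
    unfold qq
    norm_num
  · rw [Int.fract_eq_self.2 ⟨h0, h⟩]

private theorem neg_AbNum (x : ℝ) : qq (Int.fract (-x)) = qq (Int.fract x) := by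
  by_cases h : Int.fract x = 0
  · have h2 : Int.fract (-x) = 0 := Int.fract_neg_eq_zero.2 h
    rw [h, h2]
  · rw [Int.fract_neg h]
    unfold qq
    ring

private theorem sh_AbNum {x y : ℝ} (k : ℤ) (h : y = k - x) :
    qq (Int.fract y) = qq (Int.fract x) := by
  rw [h, sub_eq_add_neg, Int.fract_intCast_add, neg_AbNum]

private theorem nn_AbNum (x : ℝ) : 0 ≤ qq (Int.fract x) := by
  unfold qq
  exact mul_nonneg (Int.fract_nonneg x) (sub_nonneg.2 (Int.fract_lt_one x).le)

private theorem le_AbNum (x : ℝ) : qq x ≤ 1 / 4 := by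
  unfold qq
  nlinarith [sq_nonneg (x - 1 / 2)]

private theorem zero_AbNum (t : Fin 4 → ℝ) (h0 : ∀ i, 0 ≤ t i) (hs : ∑ i, t i = 1) :
    ∑ i, qq (t i) -
      (qq (Int.fract (t 0 + t 1)) + qq (Int.fract (t 0 + t 2)) + qq (Int.fract (t 0 + t 3))) = 0 := by
  rw [Fin.sum_univ_four] at hs
  have a0 := h0 0
  have a1 := h0 1
  have a2 := h0 2
  have a3 := h0 3
  rw [fr_AbNum (by linarith) (by linarith), fr_AbNum (by linarith) (by linarith),
    fr_AbNum (by linarith) (by linarith), Fin.sum_univ_four]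
  have h3 : t 3 = 1 - t 0 - t 1 - t 2 := by linarith
  unfold qq
  rw [h3]
  ring

theorem num4 (t : Fin 4 → ℝ) (h0 : ∀ i, 0 ≤ t i) (h1 : ∀ i, t i < 1) {m m' : ℕ}
    (hm : ∑ i, t i = m + 1) (hm' : ∑ i, (if t i = 0 then 0 else 1 - t i) = m' + 1) :
    ∑ i, qq (t i) - (qq (Int.fract (t 0 + t 1)) + qq (Int.fract (t 0 + t 2)) + qq (Int.fract (t 0 + t 3))) ≤
      (m : ℝ) * m' := by
  rcases Nat.eq_zero_or_pos m with hm0 | hm0
  · rw [hm0, Nat.cast_zero, zero_add] at hm
    rw [zero_AbNum t h0 hm, hm0]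
    simp
  rcases Nat.eq_zero_or_pos m' with hm0' | hm0'
  · rw [hm0', Nat.cast_zero, zero_add] at hm'
    have hu0 : ∀ i, 0 ≤ (if t i = 0 then 0 else 1 - t i) := by
      intro i
      split_ifs
      · exact le_refl _
      · linarith [h1 i]
    have h2 := zero_AbNum (fun i => if t i = 0 then 0 else 1 - t i) hu0 hm'
    have hq : ∀ i, qq (if t i = 0 then 0 else 1 - t i) = qq (t i) := by
      intro i
      split_ifs with h
      · rw [h]
      · unfold qq
        ring
    have hf : ∀ i j, qq (Int.fract ((if t i = 0 then 0 else 1 - t i) +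
        (if t j = 0 then 0 else 1 - t j))) = qq (Int.fract (t i + t j)) := by
      intro i j
      by_cases hi : t i = 0 <;> by_cases hj : t j = 0
      · rw [if_pos hi, if_pos hj, hi, hj]
      · rw [if_pos hi, if_neg hj, hi]
        exact sh_AbNum 1 (by push_cast; ring)
      · rw [if_neg hi, if_pos hj, hj]
        exact sh_AbNum 1 (by push_cast; ring)
      · rw [if_neg hi, if_neg hj]
        exact sh_AbNum 2 (by push_cast; ring)
    simp only [hq, hf] at h2
    rw [h2, hm0']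
    simp
  · have h2 : (1 : ℝ) ≤ m := by exact_mod_cast hm0
    have h3 : (1 : ℝ) ≤ m' := by exact_mod_cast hm0'
    have h4 : (1 : ℝ) ≤ (m : ℝ) * m' := one_le_mul_of_one_le_of_one_le h2 h3
    rw [Fin.sum_univ_four]
    have a0 := le_AbNum (t 0)
    have a1 := le_AbNum (t 1)
    have a2 := le_AbNum (t 2)
    have a3 := le_AbNum (t 3)
    have b1 := nn_AbNum (t 0 + t 1)
    have b2 := nn_AbNum (t 0 + t 2)
    have b3 := nn_AbNum (t 0 + t 3)
    linarith

end Pool.Agent.H6.LG
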