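import Pool.Agent.H82.CO.Big
import Pool.Agent.H82.CO.Final

set_option autoImplicit false

/-!
PROJECT LG (MP_bf82d2_ag, LinearGrowth, note 6157), module Big6.
-/

namespace Pool.Agent.H6.LG

open Finset Pool.Agent.H82.CO

variable {G : Type} [Group G] [Fintype G] {N : ℕ}

theorem nu_le (s : Fin N → G) : nu s ≤ N := by
  unfold nu
  have h2 : ∀ i ∈ (univ : Finset (Fin N)), (1 - 1 / (orderOf (s i) : ℝ)) ≤ 1 := by
    intro i _
    have : (0 : ℝ) ≤ 1 / (orderOf (s i) : ℝ) := by positivity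
    linarith
  refine (sum_le_sum h2).trans (le_of_eq ?_)
  simp

theorem genus_le (s : Fin N → G) : genus s ≤ 1 + (Nat.card G : ℝ) * ((N : ℝ) - 2) / 2 := by
  rw [genus_eq]
  have h1 := nu_le s
  have h2 : (Nat.card G : ℝ) * (nu s - 2) ≤ (Nat.card G : ℝ) * ((N : ℝ) - 2) :=
    mul_le_mul_of_nonneg_left (by linarith) (Nat.cast_nonneg _)
  linarith

/-- six or more branch points -/
theorem big6 (s : Fin N → G) (hs : ∀ i, s i ≠ 1) (hN : 6 ≤ N) :
    1 / 1000 * (genus s - 1) - 3 ≤ (quadInv s).re - ((N : ℝ) - 3) := by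
  obtain ⟨n, P, k, hn, hP, hk, hn2, hPn, hmain⟩ := ineq_P s hs hN
  have hk0 : 0 ≤ k := by
    rw [hk]
    have : (6 : ℝ) ≤ N := by exact_mod_cast hN
    linarith
  have h1 := (arith_n hn2 hk0 hPn).trans hmain
  have hNk : (N : ℝ) = k + 6 := by linarith
  have hgen : genus s - 1 ≤ n * (k + 2) := by
    have h3 := genus_le s
    rw [← hn, hNk] at h3
    have h4 : 0 ≤ n * k := mul_nonneg (by linarith) hk0
    nlinarith
  obtain ⟨d, hd⟩ : ∃ d : ℝ, d = (quadInv s).re - ((N : ℝ) - 3) := ⟨_, rfl⟩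
  rw [← hd] at h1 ⊢
  have h5 : 2 * n * (1 / 1000 * (n * (k + 2)) - 3) ≤ 2 * n * d := by
    refine le_trans ?_ h1
    obtain ⟨y, hy⟩ : ∃ y : ℝ, y = k + 2 := ⟨_, rfl⟩
    rw [← hy]
    have hy2 : 2 ≤ y := by linarith
    have h6 : 0 ≤ n * ((n - 2) * (y ^ 2 / 16 - 5 / 32 - 2 * y / 1000)) := by
      refine mul_nonneg (by linarith) (mul_nonneg (by linarith) ?_)
      nlinarith
    have h7 : 0 ≤ n * (y - 5) ^ 2 := mul_nonneg (by linarith) (sq_nonneg _)
    have h8 : 0 ≤ n * (y - 2) := mul_nonneg (by linarith) (by linarith)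
    nlinarith
  have h6 := le_of_mul_le_mul_left h5 (by linarith : (0 : ℝ) < 2 * n)
  linarith

end Pool.Agent.H6.LG
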