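import Pool.Agent.H6.LG.Main

set_option autoImplicit false

/-!
PROJECT LG (MP_bf82d2_ag, LinearGrowth, note 6157), module Cor.  The order of the group and the number of the branch points, in terms of the genus.
-/

namespace Pool.Agent.H6.LG

open Finset Pool.Agent.H82.CO

variable {G : Type} [Group G] [Fintype G] {N : ℕ}

theorem card_le_genus (s : Fin N → G) (hN : 4 ≤ N) (hs : ∀ i, s i ≠ 1) (hg : 1 < genus s) :
    (Nat.card G : ℝ) ≤ 12 * (genus s - 1) := by
  have hn : (0 : ℝ) < Nat.card G := by exact_mod_cast Nat.card_pos (α := G)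
  have h2 : ∀ i, 2 ≤ orderOf (s i) := by
    intro i
    have h1 : orderOf (s i) ≠ 1 := fun h => hs i (orderOf_eq_one_iff.1 h)
    have h3 := orderOf_pos (s i)
    omega
  have hν : 13 / 6 ≤ nu s := by
    rcases (by omega : N = 4 ∨ 5 ≤ N) with h4 | h5
    · subst h4
      by_contra hcon
      push Not at hcon
      have hall : ∀ i, orderOf (s i) = 2 := by
        intro i
        by_contra hi
        have hi3 : 3 ≤ orderOf (s i) := by
          have := h2 i
          omega
        have h6 : ∀ j, 1 / 2 + (if j = i then 1 / 6 else 0) ≤ (1 - 1 / (orderOf (s j) : ℝ)) := by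
          intro j
          split_ifs with hj
          · subst hj
            have h7 : (3 : ℝ) ≤ orderOf (s j) := by exact_mod_cast hi3
            have h8 := one_div_le_one_div_of_le (by norm_num : (0 : ℝ) < 3) h7
            linarith
          · have h7 : (2 : ℝ) ≤ orderOf (s j) := by exact_mod_cast h2 j
            have h8 := one_div_le_one_div_of_le (by norm_num : (0 : ℝ) < 2) h7
            linarith
        have h7 := sum_le_sum (s := (univ : Finset (Fin 4))) fun j _ => h6 j
        rw [sum_add_distrib, sum_ite_eq' univ i] at h7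
        simp only [mem_univ, if_true, sum_const, card_univ, Fintype.card_fin, nsmul_eq_mul] at h7
        rw [nu] at hcon
        push_cast at h7
        linarith
      have h6 : nu s = 2 := by
        rw [nu, sum_congr rfl fun i _ => by rw [hall i]]
        simp
        norm_num
      rw [genus_eq, h6] at hg
      norm_num at hg
    · have h6 := nu_ge s hs
      have h7 : (5 : ℝ) ≤ N := by exact_mod_cast h5
      linarith
  rw [genus_eq]
  have h3 : (Nat.card G : ℝ) * (1 / 6) ≤ (Nat.card G : ℝ) * (nu s - 2) :=
    mul_le_mul_of_nonneg_left (by linarith) hn.le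
  linarith

theorem branch_le_genus (s : Fin N → G) (hN : 4 ≤ N) (hs : ∀ i, s i ≠ 1) : (N : ℝ) ≤ 2 * genus s + 2 := by
  have hn : (2 : ℝ) ≤ Nat.card G := by
    have h1 : Nontrivial G := ⟨⟨s ⟨0, by omega⟩, 1, hs _⟩⟩
    exact_mod_cast Finite.one_lt_card_iff_nontrivial.2 h1
  have h6 := nu_ge s hs
  have h4 : (4 : ℝ) ≤ N := by exact_mod_cast hN
  rw [genus_eq]
  have h3 : 2 * (nu s - 2) ≤ (Nat.card G : ℝ) * (nu s - 2) :=
    mul_le_mul_of_nonneg_right hn (by linarith)
  linarith

end Pool.Agent.H6.LG
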