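import Pool.Agent.H6.FF.Defs

set_option autoImplicit false

/-!
PROJECT LG (MP_bf82d2_ag, LinearGrowth, note 6157).  Definitions for the abelian groups.
-/

namespace Pool.Agent.H6.LG

/-- the angle of a complex number of absolute value `1`, in `[0, 1)` -/
noncomputable def ang (z : ℂ) : ℝ := Int.fract (Complex.arg z / (2 * Real.pi))

/-- `t (1 - t)` -/
def qq (t : ℝ) : ℝ := t * (1 - t)

end Pool.Agent.H6.LG
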