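import Pool.Agent.H6.FF.Star

set_option autoImplicit false

/-!
PROJECT LG (MP_bf82d2_ag, LinearGrowth, note 6157), module StarL.
PROOF. The proof of `Pool.Agent.H6.FF.star` (in `Pool/Agent/H6/FF/Star.lean`; copy it) with `2 * n * δ` instead of `4 * n` as the bound of the total sum
(`= 2 * n * (quadInv s).re`): the final estimate is `2 n δ + n * (4 b^4) + n * (b / 2) + 3 n b ≤ n * (2 δ + 16 b^4) ≤ b |H| (2 δ + 16 b^4)` (`0 ≤ δ`).
-/

namespace Pool.Agent.H6.LG

open Finset Module Pool.Agent.H6.FF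
open Pool.Agent.H82.CO (chi quadInv nu genus eps zeta)

variable {G : Type} [Group G] [Fintype G] {N : ℕ}

theorem star' {s : Fin N → G} (hN : N ≤ 5) {K H : Subgroup G} [K.Normal] [H.Normal] [Fintype H] {w : G} {b δ : ℝ} (hb : 1 ≤ b)
    (D : Dat s K H w b) (hδ : 0 ≤ δ) (hd : (quadInv s).re ≤ δ) :
    (∑ x : H, (chi s x ^ 2 + chi s (x * w * (x * w)))).re ≤ (2 * b * δ + 16 * b ^ 5) * Nat.card H := by
  classical
  obtain ⟨n, hn⟩ : ∃ n : ℝ, n = (Nat.card G : ℝ) := ⟨_, rfl⟩
  have hn1 : (1 : ℝ) ≤ n := by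
    rw [hn]
    exact_mod_cast Nat.card_pos (α := G)
  -- the total sum
  have htot : ∑ g : G, (chi s g ^ 2).re + ∑ g : G, (chi s (g * g)).re ≤ 2 * n * δ := by
    have h1 : ∑ g : G, (chi s g ^ 2).re + ∑ g : G, (chi s (g * g)).re =
        2 * n * (quadInv s).re := by
      have h2 : (2 * (n : ℂ)) * quadInv s = ∑ g : G, (chi s g ^ 2 + chi s (g ^ 2)) := by
        unfold Pool.Agent.H82.CO.quadInv
        have h3 : (n : ℂ) = (Nat.card G : ℂ) := by rw [hn]; simp
        have h4 : (n : ℂ) ≠ 0 := by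
          rw [Ne, Complex.ofReal_eq_zero]
          linarith
        rw [← h3, ← mul_assoc, mul_one_div, div_self (mul_ne_zero two_ne_zero h4), one_mul]
      have h3 : ((2 * (n : ℂ)) * quadInv s).re = 2 * n * (quadInv s).re := by
        have h4 : (2 * (n : ℂ)) = ((2 * n : ℝ) : ℂ) := by push_cast; ring
        rw [h4, Complex.re_ofReal_mul]
      rw [← h3, h2, Complex.re_sum, ← Finset.sum_add_distrib]
      refine Finset.sum_congr rfl fun g _ => ?_
      rw [Complex.add_re, pow_two g]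
    rw [h1]
    exact mul_le_mul_of_nonneg_left hd (by linarith)
  -- the two sums over H
  have hA : ∑ x : H, (chi s (x : G) ^ 2).re =
      ∑ g ∈ (univ : Finset G).filter (fun g => g ∈ H), (chi s g ^ 2).re :=
    (Finset.sum_subtype _ (p := fun g => g ∈ H) (fun x => by simp) fun g => (chi s g ^ 2).re).symm
  have hB : ∑ x : H, (chi s ((x : G) * w * (x * w))).re =
      ∑ g ∈ (univ : Finset G).filter (fun g => w⁻¹ * g ∈ H), (chi s (g * g)).re := by
    have h1 : ∑ x : H, (chi s ((x : G) * w * (x * w))).re =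
        ∑ g ∈ (univ : Finset G).filter (fun g => g ∈ H), (chi s (g * w * (g * w))).re :=
      (Finset.sum_subtype _ (p := fun g => g ∈ H) (fun x => by simp)
        fun g => (chi s (g * w * (g * w))).re).symm
    rw [h1, Finset.sum_filter, Finset.sum_filter, ← Equiv.sum_comp (Equiv.mulRight w)
      (fun g => if w⁻¹ * g ∈ H then (chi s (g * g)).re else 0)]
    refine Finset.sum_congr rfl fun g _ => ?_
    rw [Equiv.coe_mulRight]
    have h2 : w⁻¹ * (g * w) ∈ H ↔ g ∈ H := by
      constructor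
      · intro h
        have h3 := ‹H.Normal›.conj_mem _ h w
        have h4 : w * (w⁻¹ * (g * w)) * w⁻¹ = g := by group
        rwa [h4] at h3
      · intro h
        have h3 := ‹H.Normal›.conj_mem _ h w⁻¹
        have h4 : w⁻¹ * g * w⁻¹⁻¹ = w⁻¹ * (g * w) := by group
        rwa [h4] at h3
    simp only [h2]
  have hX : (∑ x : H, (chi s x ^ 2 + chi s (x * w * (x * w)))).re =
      ∑ g ∈ (univ : Finset G).filter (fun g => g ∈ H), (chi s g ^ 2).re +
      ∑ g ∈ (univ : Finset G).filter (fun g => w⁻¹ * g ∈ H), (chi s (g * g)).re := by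
    rw [← hA, ← hB, Complex.re_sum, ← Finset.sum_add_distrib]
    exact Finset.sum_congr rfl fun x _ => Complex.add_re _ _
  -- the rests
  have hcardG : ((univ : Finset G).card : ℝ) = n := by
    rw [hn, Nat.card_eq_fintype_card, Finset.card_univ]
  have hR1 : -(n * (4 * b ^ 4)) ≤
      ∑ g ∈ (univ : Finset G).filter (fun g => ¬ g ∈ H), (chi s g ^ 2).re := by
    have h1 : ∑ g ∈ (univ : Finset G).filter (fun g => ¬ g ∈ H), (-(4 * b ^ 4)) ≤
        ∑ g ∈ (univ : Finset G).filter (fun g => ¬ g ∈ H), (chi s g ^ 2).re :=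
      Finset.sum_le_sum fun g hg => nonH_Star hb D (Finset.mem_filter.1 hg).2
    rw [Finset.sum_const, nsmul_eq_mul] at h1
    have h2 : (((univ : Finset G).filter (fun g => ¬ g ∈ H)).card : ℝ) ≤ n := by
      rw [← hcardG]
      exact_mod_cast Finset.card_filter_le _ _
    have h3 : 0 ≤ 4 * b ^ 4 := by positivity
    have h4 := mul_le_mul_of_nonneg_right h2 h3
    linarith
  have hR2 : -(n * (b / 2) + 3 * n * b) ≤
      ∑ g ∈ (univ : Finset G).filter (fun g => ¬ w⁻¹ * g ∈ H), (chi s (g * g)).re := by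
    have h1 : ∑ g ∈ (univ : Finset G).filter (fun g => ¬ w⁻¹ * g ∈ H),
        (-(b / 2) - if g * g ∈ K then 3 * n else 0) ≤
        ∑ g ∈ (univ : Finset G).filter (fun g => ¬ w⁻¹ * g ∈ H), (chi s (g * g)).re := by
      refine Finset.sum_le_sum fun g hg => ?_
      split_ifs with h2
      · have h3 := sq_Star (s := s) hN (g * g)
        rw [← hn] at h3
        linarith
      · have h3 : g * g ≠ 1 := fun h => h2 (h ▸ K.one_mem)
        rw [re_chi s h3]
        have h4 := D.fxb _ h2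
        linarith
    rw [Finset.sum_sub_distrib, Finset.sum_const, nsmul_eq_mul, ← Finset.sum_filter,
      Finset.sum_const, nsmul_eq_mul, Finset.filter_filter] at h1
    have h2 : (((univ : Finset G).filter (fun g => ¬ w⁻¹ * g ∈ H)).card : ℝ) ≤ n := by
      rw [← hcardG]
      exact_mod_cast Finset.card_filter_le _ _
    have h3 : (((univ : Finset G).filter (fun g => ¬ w⁻¹ * g ∈ H ∧ g * g ∈ K)).card : ℝ) ≤ b := by
      have h4 := D.cnt
      rw [Nat.card_eq_fintype_card, Fintype.card_subtype] at h4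
      exact h4
    have h4 := mul_le_mul_of_nonneg_right h2 (by linarith : 0 ≤ b / 2)
    have h5 := mul_le_mul_of_nonneg_right h3 (by linarith : 0 ≤ 3 * n)
    linarith
  have hS1 := Finset.sum_filter_add_sum_filter_not (univ : Finset G) (fun g => g ∈ H)
    (fun g => (chi s g ^ 2).re)
  have hS2 := Finset.sum_filter_add_sum_filter_not (univ : Finset G) (fun g => w⁻¹ * g ∈ H)
    (fun g => (chi s (g * g)).re)
  rw [hX]
  have hfin : ∑ g ∈ (univ : Finset G).filter (fun g => g ∈ H), (chi s g ^ 2).re +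
      ∑ g ∈ (univ : Finset G).filter (fun g => w⁻¹ * g ∈ H), (chi s (g * g)).re ≤
      2 * n * δ + n * (4 * b ^ 4) + (n * (b / 2) + 3 * n * b) := by linarith
  refine hfin.trans ?_
  have hb4 : b ≤ b ^ 4 := by
    calc b = b ^ 1 := (pow_one b).symm
      _ ≤ b ^ 4 := pow_le_pow_right₀ hb (by norm_num)
  have h14 : 1 ≤ b ^ 4 := one_le_pow₀ hb
  have h1 : 2 * n * δ + n * (4 * b ^ 4) + (n * (b / 2) + 3 * n * b) ≤ n * (2 * δ + 16 * b ^ 4) := by
    have h2 : n * (2 * δ + 4 * b ^ 4 + (b / 2 + 3 * b)) ≤ n * (2 * δ + 16 * b ^ 4) :=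
      mul_le_mul_of_nonneg_left (by linarith) (by linarith)
    linarith
  refine h1.trans ?_
  have h2 := D.ind
  rw [← hn] at h2
  have h3 := mul_le_mul_of_nonneg_right h2 (by positivity : 0 ≤ 2 * δ + 16 * b ^ 4)
  calc n * (2 * δ + 16 * b ^ 4) ≤ b * (Nat.card H : ℝ) * (2 * δ + 16 * b ^ 4) := h3
    _ = (2 * b * δ + 16 * b ^ 5) * Nat.card H := by ring

end Pool.Agent.H6.LG
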