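import Pool.Agent.H11.GQ.Main

set_option autoImplicit false

/-!
PROJECT LG (MP_bf82d2_ag, LinearGrowth, note 6157), module GQL.
PROOF. As `Pool.Agent.H11.GQ.main` (`Pool/Agent/H11/GQ/Main.lean`), with `δ` instead of `2` at the end: `n * (n / 168000) ≤ 2 n κ δ`, `κ ≤ b`, so
`n ≤ 336000 b δ`.
-/

namespace Pool.Agent.H6.LG

open Finset Module Pool.Agent.H82.CO Pool.Agent.H11.GQ

theorem gq : ∃ B : ℕ, ∀ (G : Type) [Group G] [Fintype G] (N : ℕ) (_hN : 4 ≤ N) (_hN5 : N ≤ 5)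
    (s : Fin N → G) (_hprod : (List.ofFn s).prod = 1) (_hgen : Subgroup.closure (Set.range s) = ⊤)
    (c : G) (_hc : 1 / 1000 * (Nat.card G : ℝ) ≤ rt c) (δ : ℝ) (_hδ : 0 ≤ δ) (_hd : (quadInv s).re ≤ δ)
    (_hbig : (B : ℝ) * (δ + 1) < Nat.card G),
    ∃ (K : Subgroup G) (_ : K.Normal), Nat.card K ≤ B ∧ nuK s K ≤ 2 := by
  obtain ⟨e, he⟩ : ∃ e : ℕ, e = 420000 := ⟨_, rfl⟩
  have he0 : 0 < e := by omega
  have heR : (e : ℝ) = 420000 := by rw [he]; norm_num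
  obtain ⟨b, hb⟩ : ∃ b : ℕ, b = beta e ^ e := ⟨_, rfl⟩
  refine ⟨504000 * b + 1100, fun G _ _ N hN hN5 s hprod hgen c hroot' δ hδ hd hbig => ?_⟩
  push_cast at hbig
  have hb0 : (0 : ℝ) ≤ b := Nat.cast_nonneg b
  have hn1 : (0 : ℝ) < Nat.card G := by exact_mod_cast Nat.card_pos (α := G)
  have hNR : (N : ℝ) ≤ 5 := by exact_mod_cast hN5
  obtain ⟨K, hK, hcard, hD⟩ := exists_max (G := G) e he0
  have hcK : c ∈ K := by
    by_contra hcK
    have h1 := hD c hcK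
    have h2 := rt_le_rk K c
    rw [heR] at h1
    linarith
  have hrk : 1 / 1000 * (Nat.card G : ℝ) ≤ rk K 1 := by
    rw [← rk_of_mem K hcK]
    exact hroot'.trans (rt_le_rk K c)
  refine ⟨K, hK, ?_, ?_⟩
  · rw [← hb] at hcard
    omega
  by_contra hcon
  push Not at hcon
  have hgap : 2 + 1 / 42 ≤ nuK s K :=
    gap (by omega) (fun i => orderOf (QuotientGroup.mk (s i) : G ⧸ K)) (fun i => orderOf_pos _) hcon
  have hkey := key s hprod hgen K (1 / 420000) (by norm_num) (by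
    intro c hc
    have h1 := hD c hc
    rw [heR] at h1
    linarith)
  rw [← hb] at hcard
  have hcR : (Nat.card K : ℝ) ≤ b := by exact_mod_cast hcard
  obtain ⟨n, hn'⟩ : ∃ n : ℝ, n = Nat.card G := ⟨_, rfl⟩
  obtain ⟨κ, hκ⟩ : ∃ κ : ℝ, κ = Nat.card K := ⟨_, rfl⟩
  obtain ⟨r, hr⟩ : ∃ r : ℝ, r = rk K 1 := ⟨_, rfl⟩
  obtain ⟨v, hv⟩ : ∃ v : ℝ, v = nuK s K := ⟨_, rfl⟩
  obtain ⟨d, hd'⟩ : ∃ d : ℝ, d = (quadInv s).re := ⟨_, rfl⟩
  rw [← hn', ← hκ, ← hr, ← hv, ← hd'] at hkey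
  rw [← hn'] at hn1 hbig
  rw [← hn', ← hr] at hrk
  rw [← hv] at hgap
  rw [← hd'] at hd
  rw [← hκ] at hcR
  have hκ0 : 0 ≤ κ := by rw [hκ]; exact Nat.cast_nonneg _
  have h1 : n / 42000 ≤ r * (v - 2) := by
    have h2 : 1 / 1000 * n * (1 / 42) ≤ r * (v - 2) :=
      mul_le_mul hrk (by linarith) (by norm_num) (by linarith)
    linarith
  have h2 : 1 / 420000 * n * N ≤ n / 84000 := by
    have := mul_le_mul_of_nonneg_left hNR (by linarith : (0 : ℝ) ≤ 1 / 420000 * n)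
    linarith
  have h3 : n / 84000 ≤ r * (v - 2) - 1 / 420000 * n * N := by linarith
  have h4 : n / 2 * (n / 84000) ≤ n / 2 * (r * (v - 2) - 1 / 420000 * n * N) :=
    mul_le_mul_of_nonneg_left h3 (by linarith)
  have h6 : 2 * (n * κ) * d ≤ 2 * (n * κ) * δ := mul_le_mul_of_nonneg_left hd (by positivity)
  have h6' : 0 ≤ n * κ := by positivity
  have h7 : n * (n / 168000) ≤ n * (2 * κ * δ) := by nlinarith
  have h8 := le_of_mul_le_mul_left h7 hn1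
  have h9 : κ * δ ≤ b * δ := mul_le_mul_of_nonneg_right hcR hδ
  have h10 : 0 ≤ (b : ℝ) * δ := mul_nonneg hb0 hδ
  nlinarith

end Pool.Agent.H6.LG
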