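import Pool.Agent.H82.SQ.Cor
import Pool.Agent.H54.SQ.Ten

set_option autoImplicit false

/-!
PROJECT LG (MP_bf82d2_ag, LinearGrowth, note 6157), module Roots.
PROOF. As `Pool.Agent.H82.SQ.many_roots` (`Pool/Agent/H82/SQ/Cor.lean`), with `δ` instead of `N - 3`. `N = 4`: `tensor_ge`, `two_quadInv_ge`, `rho_lt`
(`rho < 4 r`): `5/1296 n - 2 r < 2 δ`. `N = 5`: `tensor_five`: `n/16 - 5 r / 2 < 2 δ`, `r > n/40 - 4 δ/5`.
-/

namespace Pool.Agent.H6.LG

open Finset Pool.Agent.H82.CO Pool.Agent.H82.SQ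

variable {G : Type} [Group G] [Fintype G] {N : ℕ}

/-- A power of some `s i` has many square roots. -/
theorem many_roots' (s : Fin N → G) (hs : ∀ i, s i ≠ 1) (hN : 4 ≤ N) (hN5 : N ≤ 5) (hna : ∃ a b : G, a * b ≠ b * a)
    (hprod : (List.ofFn s).prod = 1) (hgen : Subgroup.closure (Set.range s) = ⊤) (hg : 1 < genus s)
    {δ : ℝ} (hδ : 0 ≤ δ) (hd : (quadInv s).re ≤ δ) :
    ∃ i, ∃ k : ℕ, s i ^ k ≠ 1 ∧ 5 / 2592 * (Nat.card G : ℝ) - δ ≤ rt (s i ^ k) := by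
  by_contra hne
  push Not at hne
  obtain ⟨r, hr⟩ : ∃ r : ℝ, r = 5 / 2592 * (Nat.card G : ℝ) - δ := ⟨_, rfl⟩
  have h0 := hne ⟨0, by omega⟩ 1 (by rw [pow_one]; exact hs _)
  rw [← hr] at hne h0
  have hr0 : 0 < r := lt_of_le_of_lt (rt_nonneg _) h0
  have h1 := rho_lt s hs (by omega) hr0 hne
  have hn0 : (0 : ℝ) ≤ Nat.card G := Nat.cast_nonneg _
  rcases (by omega : N = 4 ∨ N = 5) with h4 | h5
  · subst h4
    have h2 := two_quadInv_ge s hs hN (Pool.Agent.H54.SQ.tensor_ge s hs hna hprod hgen hg)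
    push_cast at h1
    linarith
  · subst h5
    have h2 := two_quadInv_ge s hs hN (E := (Nat.card G : ℝ) / 16) (by
      have := tensor_five s hs
      linarith)
    push_cast at h1
    linarith

end Pool.Agent.H6.LG
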