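import Pool.Agent.H81.NF.Struct

set_option autoImplicit false

/-!
PROJECT LG (MP_bf82d2_ag, LinearGrowth, note 6157), module StructL.
PROOF. The second half of `Pool.Agent.H81.NF.structure_thm_sq` (`Pool/Agent/H81/NF/Struct.lean`), from `hroot'` on.
-/

namespace Pool.Agent.H6.LG

open Finset Pool.Agent.H82.CO Pool.Agent.H81.NF

theorem structure' : ∃ B : ℕ, ∀ (G : Type) [Group G] [Fintype G] (N : ℕ) (_hN : 4 ≤ N) (_hN5 : N ≤ 5)
    (s : Fin N → G) (_hgen : Subgroup.closure (Set.range s) = ⊤) (c : G) (_hc : 1 / 1040 * (Nat.card G : ℝ) ≤ rt c),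
    ∃ A : Subgroup G, A.Normal ∧ (∀ a ∈ A, ∀ b ∈ A, a * b = b * a) ∧ A.index ≤ B ∧
      ∃ x : G, ∀ a ∈ A, x * a * x⁻¹ = a⁻¹ := by
  obtain ⟨B4, h4⟩ := neumann_fg 4 (1 / 1040 ^ 2) (by positivity)
  obtain ⟨B5, h5⟩ := neumann_fg 5 (1 / 1040 ^ 2) (by positivity)
  refine ⟨max 1040 (1040 * max B4 B5).factorial, fun G _ _ N hN hN5' s hgen c hroot' => ?_⟩
  have hN5 : N = 4 ∨ N = 5 := by omega
  have hcp := commProb_ge _ hroot'
  obtain ⟨A₀, hA1, hA2, hA3⟩ : ∃ A : Subgroup G, A.Normal ∧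
      (∀ a ∈ A, ∀ b ∈ A, a * b = b * a) ∧ A.index ≤ max B4 B5 := by
    rcases hN5 with h | h
    · subst h
      obtain ⟨A, h1, h2, h3⟩ := h4 G s hgen hcp
      exact ⟨A, h1, h2, h3.trans (le_max_left _ _)⟩
    · subst h
      obtain ⟨A, h1, h2, h3⟩ := h5 G s hgen hcp
      exact ⟨A, h1, h2, h3.trans (le_max_right _ _)⟩
  rw [Pool.Agent.H82.SQ.rt_eq_card] at hroot'
  obtain ⟨A, hB1, hB2, hB3, x, hx2, hx⟩ := exists_inverted A₀ hA2 hA3
    (by norm_num : (0 : ℝ) < 1 / 1040) hroot' (m := 1040 * max B4 B5) (by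
      push_cast
      rw [div_le_iff₀ (by norm_num)]
      linarith [show (0 : ℝ) ≤ max (B4 : ℝ) B5 from le_max_of_le_left (Nat.cast_nonneg _)])
  exact ⟨A, hB1, fun a ha b hb => hA2 a (hB2 ha) b (hB2 hb), hB3.trans (le_max_right _ _), x, hx⟩

end Pool.Agent.H6.LG
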