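import Pool.Agent.H6.FF.Main
import Pool.Agent.H6.LG.G1L
import Pool.Agent.H6.LG.G0L
import Pool.Agent.H6.LG.Roots
import Pool.Agent.H6.LG.StructL
import Pool.Agent.H6.LG.GQL
import Pool.Agent.H6.LG.Big6
import Pool.Agent.H10.AB
import Pool.Agent.H82.CO.Final5
import Pool.Agent.H82.CO.FS

set_option autoImplicit false

/-!
PROJECT LG (MP_bf82d2_ag, LinearGrowth, note 6157), module Main.  Assembly.
-/

namespace Pool.Agent.H6.LG

open Finset Module Pool.Agent.H6.FF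
open Pool.Agent.H82.CO (chi quadInv nu genus eps zeta)
open Pool.Agent.H11.GQ (nuK)

private theorem index_big_L {G : Type} [Group G] [Fintype G] {K H : Subgroup G} (hKH : K ≤ H) {b b' t : ℝ}
    (hb0 : 0 < b) (hb' : 0 < b') (hK : (Nat.card K : ℝ) ≤ b) (hi : (Nat.card G : ℝ) ≤ b' * Nat.card H)
    (hbig : b' * b * t < Nat.card G) : t < ((K.subgroupOf H).index : ℝ) := by
  have h1 : Nat.card (K.subgroupOf H) * (K.subgroupOf H).index = Nat.card H := Subgroup.card_mul_index _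
  have h2 : Nat.card (K.subgroupOf H) = Nat.card K := Nat.card_congr (Subgroup.subgroupOfEquivOfLe hKH).toEquiv
  rw [h2] at h1
  have h3 : (Nat.card K : ℝ) * ((K.subgroupOf H).index : ℝ) = Nat.card H := by exact_mod_cast h1
  by_contra hcon
  push Not at hcon
  have h4 : (Nat.card H : ℝ) ≤ b * t := by
    rw [← h3]
    exact mul_le_mul hK hcon (Nat.cast_nonneg _) hb0.le
  have h5 : b' * (Nat.card H : ℝ) ≤ b' * (b * t) := mul_le_mul_of_nonneg_left h4 hb'.le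
  linarith [mul_assoc b' b t]

theorem g1_lin (b : ℕ) (hb : 1 ≤ b) : ∃ C : ℕ, ∀ (G : Type) [Group G] [Fintype G] (N : ℕ) (_hN : 4 ≤ N) (_hN5 : N ≤ 5)
    (s : Fin N → G) (_hs : ∀ i, s i ≠ 1) (_hp : (List.ofFn s).prod = 1) (_hg : Subgroup.closure (Set.range s) = ⊤)
    (_hgen : 1 < genus s) (δ : ℝ) (_hδ : 0 ≤ δ) (_hd : (quadInv s).re ≤ δ) (K A : Subgroup G) [K.Normal] [A.Normal]
    (_hK : Nat.card K ≤ b)
    (_hAi : A.index ≤ b) (_hA : ∀ a ∈ A, ∀ c ∈ A, a * c = c * a) (x : G) (_hx : ∀ a ∈ A, x * a * x⁻¹ = a⁻¹)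
    (_hfx : ∀ g, g ∉ K → fx s g ≤ 4 * (Nat.card K : ℝ)) (_hν : nuK s K = 2) (F : G →* ℂˣ) (_hF : FData s K F),
    (Nat.card G : ℝ) ≤ C * (δ + 1) := by
  obtain ⟨C1, h1⟩ := g1_neg b
  obtain ⟨b', hb'⟩ : ∃ b' : ℕ, b' = 60 * b ^ 2 := ⟨_, rfl⟩
  refine ⟨C1 + b' * b * (16 * b' ^ 7 + 1), fun G _ _ N hN hN5 s hs hp hg hgen δ hδ hd K A _ _ hK hAi hA x hx hfx hν F hF => ?_⟩
  by_contra hcon
  push Not at hcon
  push_cast at hcon
  have hbR : (1 : ℝ) ≤ b := by exact_mod_cast hb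
  have hKR : (Nat.card K : ℝ) ≤ b := by exact_mod_cast hK
  have hbb : (60 * (b : ℝ) ^ 2) = (b' : ℝ) := by rw [hb']; push_cast; ring
  have hb'1 : (1 : ℝ) ≤ b' := by
    rw [← hbb]
    nlinarith
  have hC1 : (0 : ℝ) ≤ C1 := Nat.cast_nonneg _
  have hB0 : (0 : ℝ) ≤ (b' : ℝ) * b * (16 * (b' : ℝ) ^ 7 + 1) := by positivity
  have hn1 : C1 < Nat.card G := by
    have h2 : (C1 : ℝ) < Nat.card G := by
      refine lt_of_le_of_lt ?_ hcon
      nlinarith [mul_nonneg hC1 hδ, mul_nonneg hB0 hδ]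
    exact_mod_cast h2
  obtain ⟨w, hw⟩ := h1 G N hN5 s hg K A hK hAi hA x hx hν F hF hn1
  obtain ⟨D, hoff⟩ := g1_dat hF hν hw hbR hKR hfx
  rw [hbb] at D
  have hbb' : (b : ℝ) ≤ b' := by
    rw [← hbb]
    nlinarith
  have hidx : (b' : ℝ) ^ 2 * (2 * b' * δ + 16 * (b' : ℝ) ^ 5) + 1 < ((K.subgroupOf F.ker).index : ℝ) := by
    refine index_big_L D.KH (by linarith) (by linarith) hKR D.ind (lt_of_le_of_lt ?_ hcon)
    have h3 : (b' : ℝ) ^ 2 * (2 * b' * δ + 16 * (b' : ℝ) ^ 5) + 1 ≤ (16 * (b' : ℝ) ^ 7 + 1) * (δ + 1) := by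
      have h4 : (b' : ℝ) ^ 3 ≤ (b' : ℝ) ^ 7 := pow_le_pow_right₀ hb'1 (by norm_num)
      have h5 := mul_le_mul_of_nonneg_right h4 hδ
      have h6 : (0 : ℝ) ≤ (b' : ℝ) ^ 7 * δ := by positivity
      nlinarith
    have h4 := mul_le_mul_of_nonneg_left h3 (by positivity : (0 : ℝ) ≤ (b' : ℝ) * b)
    nlinarith [mul_nonneg hC1 hδ]
  have : Fintype F.ker := Fintype.ofFinite _
  obtain ⟨z, hz, -, -, -, -, hcomm, -, -⟩ := dat_facts D
  have hAR : (A.index : ℝ) ≤ b' := by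
    have : (A.index : ℝ) ≤ b := by exact_mod_cast hAi
    linarith
  have hR : ∀ ψ ∈ irr F.ker, Rk univ s K F.ker ψ = 0 ∨ (Rk univ s K F.ker ψ = 2 ∧ fs (tau F.ker w) z ψ = -1) :=
    fun ψ hψ => g1_R' hp hg hN5 hδ hd hb'1 D hν hoff hA hAR hidx hz hψ
  have hker : ∀ g, g ∈ F.ker ↔ F g = 1 := fun g => MonoidHom.mem_ker
  have hord := fun i => fd_ord hF i
  obtain ⟨hcard, hko⟩ := g1_two hker hw hord D.KH hν hs hN hg hcomm hR
  obtain ⟨hN4, hko2, i0, h0, h0'⟩ := g1_four hker hw hord D.KH hν hs hN hgen hcomm hz hR hcard hko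
  subst hN4
  have hi2 : F.ker.index = 2 := by
    have h3 : Nat.card F.ker * F.ker.index = Nat.card G := Subgroup.card_mul_index _
    rw [hcard, mul_comm 2] at h3
    exact Nat.eq_of_mul_eq_mul_left Nat.card_pos h3
  refine g1_final hp hg D hcard ?_ ?_ hko2 h0 h0' hz hR
  · intro a c ha hc
    rw [Subgroup.mul_mem_iff_of_index_two hi2]
    exact iff_of_false ha hc
  · intro i hi
    rw [hker] at hi
    have h3 := hord i
    rw [hi, orderOf_one, hko2 i] at h3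
    omega

theorem g0_lin (b : ℕ) (hb : 1 ≤ b) : ∃ C : ℕ, ∀ (G : Type) [Group G] [Fintype G] (N : ℕ) (_hN : 4 ≤ N) (_hN5 : N ≤ 5)
    (s : Fin N → G) (_hs : ∀ i, s i ≠ 1) (_hp : (List.ofFn s).prod = 1) (_hg : Subgroup.closure (Set.range s) = ⊤)
    (δ : ℝ) (_hδ : 0 ≤ δ) (_hd : (quadInv s).re ≤ δ) (K A : Subgroup G) [K.Normal] [A.Normal] (_hK : Nat.card K ≤ b)
    (_hAi : A.index ≤ b) (_hA : ∀ a ∈ A, ∀ c ∈ A, a * c = c * a) (x : G) (_hx : ∀ a ∈ A, x * a * x⁻¹ = a⁻¹)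
    (_hfx : ∀ g, g ∉ K → fx s g ≤ 4 * (Nat.card K : ℝ)) (_hν : (Nat.card G : ℝ) * (2 - nuK s K) = 2 * (Nat.card K : ℝ)),
    (Nat.card G : ℝ) ≤ C * (δ + 1) := by
  obtain ⟨C1, h1⟩ := g0_dat b hb
  obtain ⟨b', hb'⟩ : ∃ b' : ℕ, b' = 60 * b ^ 2 := ⟨_, rfl⟩
  refine ⟨C1 + b' * b * (12 * b' ^ 2 * (b' ^ 2 * (16 * b' ^ 5) + 1 + 2 * b') + 4 * b' ^ 3),
    fun G _ _ N hN hN5 s hs hp hg δ hδ hd K A _ _ hK hAi hA x hx hfx hν => ?_⟩
  by_contra hcon
  push Not at hcon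
  push_cast at hcon
  have hbR : (1 : ℝ) ≤ b := by exact_mod_cast hb
  have hKR : (Nat.card K : ℝ) ≤ b := by exact_mod_cast hK
  have hbb : (60 * (b : ℝ) ^ 2) = (b' : ℝ) := by rw [hb']; push_cast; ring
  have hb'1 : (1 : ℝ) ≤ b' := by
    rw [← hbb]
    nlinarith
  have hbb' : (b : ℝ) ≤ b' := by
    rw [← hbb]
    nlinarith
  have hC1 : (0 : ℝ) ≤ C1 := Nat.cast_nonneg _
  have hB0 : (0 : ℝ) ≤ (b' : ℝ) * b * (12 * (b' : ℝ) ^ 2 * ((b' : ℝ) ^ 2 * (16 * (b' : ℝ) ^ 5) + 1 + 2 * b') + 4 * (b' : ℝ) ^ 3) := by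
    positivity
  have hn1 : C1 < Nat.card G := by
    have h2 : (C1 : ℝ) < Nat.card G := by
      refine lt_of_le_of_lt ?_ hcon
      nlinarith [mul_nonneg hC1 hδ, mul_nonneg hB0 hδ]
    exact_mod_cast h2
  obtain ⟨H, hH, α, β, r, S⟩ := h1 G N hN5 s hp hg K A hK hAi hA x hx hfx hν hn1
  rw [hbb] at S
  have hidx : 12 * (b' : ℝ) ^ 2 * ((b' : ℝ) ^ 2 * (2 * b' * δ + 16 * (b' : ℝ) ^ 5) + 1 + 2 * b') + 4 * (b' : ℝ) ^ 3 <
      ((K.subgroupOf H).index : ℝ) := by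
    refine index_big_L S.dat.KH (by linarith) (by linarith) hKR S.dat.ind (lt_of_le_of_lt ?_ hcon)
    have h3 : 12 * (b' : ℝ) ^ 2 * ((b' : ℝ) ^ 2 * (2 * b' * δ + 16 * (b' : ℝ) ^ 5) + 1 + 2 * b') + 4 * (b' : ℝ) ^ 3 ≤
        (12 * (b' : ℝ) ^ 2 * ((b' : ℝ) ^ 2 * (16 * (b' : ℝ) ^ 5) + 1 + 2 * b') + 4 * (b' : ℝ) ^ 3) * (δ + 1) := by
      have h4 : (b' : ℝ) ^ 5 ≤ (b' : ℝ) ^ 9 := pow_le_pow_right₀ hb'1 (by norm_num)
      have h5 := mul_le_mul_of_nonneg_right h4 hδ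
      have h6 : (0 : ℝ) ≤ (b' : ℝ) ^ 9 * δ := by positivity
      have h7 : (0 : ℝ) ≤ (b' : ℝ) ^ 2 * δ := by positivity
      have h8 : (0 : ℝ) ≤ (b' : ℝ) ^ 3 * δ := by positivity
      nlinarith
    have h4 := mul_le_mul_of_nonneg_left h3 (by positivity : (0 : ℝ) ≤ (b' : ℝ) * b)
    nlinarith [mul_nonneg hC1 hδ]
  have : Fintype H := Fintype.ofFinite _
  obtain ⟨z, hz, -⟩ := dat_facts S.dat
  have hAR : (A.index : ℝ) ≤ b' := by
    have : (A.index : ℝ) ≤ b := by exact_mod_cast hAi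
    linarith
  exact g0_final hN hs S hz fun ψ hψ => g0_R' hp hg hN5 hδ hd hb'1 S hA hAR hidx hz hψ

/-- non-abelian groups, four or five branch points -/
theorem nonab_lin : ∃ C : ℕ, ∀ (G : Type) [Group G] [Fintype G] (N : ℕ) (_hN : 4 ≤ N) (_hN5 : N ≤ 5)
    (s : Fin N → G) (_hs : ∀ i, s i ≠ 1) (_hna : ∃ a b : G, a * b ≠ b * a)
    (_hprod : (List.ofFn s).prod = 1) (_hgen : Subgroup.closure (Set.range s) = ⊤)
    (_hg : 1 < genus s), (Nat.card G : ℝ) ≤ C * ((quadInv s).re + 1) := by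
  obtain ⟨B1, hB1⟩ := gq
  obtain ⟨B2, hB2⟩ := structure'
  obtain ⟨b, hb⟩ : ∃ b : ℕ, b = B1 + B2 + 1 := ⟨_, rfl⟩
  obtain ⟨C1, hC1⟩ := g1_lin b (by omega)
  obtain ⟨C0, hC0⟩ := g0_lin b (by omega)
  refine ⟨C1 + C0 + B1 + 1100, fun G _ _ N hN hN5 s hs hna hprod hgen hg => ?_⟩
  obtain ⟨δ, hδ'⟩ : ∃ δ : ℝ, δ = (quadInv s).re := ⟨_, rfl⟩
  have hδ : 0 ≤ δ := by
    obtain ⟨E, _, _, _, σ, -, h⟩ := Pool.Agent.H11.GQ.exists_chi s hprod hgen
    rw [hδ', ← h, Complex.natCast_re]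
    exact Nat.cast_nonneg _
  have hd : (quadInv s).re ≤ δ := hδ'.ge
  rw [← hδ']
  have hR1 : (0 : ℝ) ≤ C1 := Nat.cast_nonneg _
  have hR0 : (0 : ℝ) ≤ C0 := Nat.cast_nonneg _
  have hRB : (0 : ℝ) ≤ B1 := Nat.cast_nonneg _
  by_contra hcon
  push Not at hcon
  push_cast at hcon
  have e1 : (C1 : ℝ) * (δ + 1) < Nat.card G := by nlinarith
  have e0 : (C0 : ℝ) * (δ + 1) < Nat.card G := by nlinarith
  have eB : (B1 : ℝ) * (δ + 1) < Nat.card G := by nlinarith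
  have e2 : (1100 : ℝ) * (δ + 1) < Nat.card G := by nlinarith
  obtain ⟨i, k, -, hroot⟩ := many_roots' s hs hN hN5 hna hprod hgen hg hδ hd
  obtain ⟨K, hKn, hK, hν⟩ := hB1 G N hN hN5 s hprod hgen (s i ^ k) (by linarith) δ hδ hd eB
  obtain ⟨A, hAn, hA, hAi, x, hx⟩ := hB2 G N hN hN5 s hgen (s i ^ k) (by linarith)
  obtain ⟨hfx, h1 | h0⟩ := ek s hprod hgen K hν
  · obtain ⟨hν2, F, hF⟩ := h1
    have := hC1 G N hN hN5 s hs hprod hgen hg δ hδ hd K A (by omega) (by omega) hA x hx hfx hν2 F hF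
    linarith
  · have := hC0 G N hN hN5 s hs hprod hgen δ hδ hd K A (by omega) (by omega) hA x hx hfx h0
    linarith

theorem ab_five {G : Type} [Group G] [Fintype G] (s : Fin 5 → G) (hs : ∀ i, s i ≠ 1) (hab : ∀ a b : G, a * b = b * a)
    (hgen : Subgroup.closure (Set.range s) = ⊤) : (Nat.card G : ℝ) / 32 - 1 ≤ (quadInv s).re := by
  have h1 := Pool.Agent.H82.CO.tensor_five s hs
  have h2 := Pool.Agent.H82.CO.fs_comm s hab hgen
  have hn : (0 : ℝ) < Nat.card G := by exact_mod_cast Nat.card_pos (α := G)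
  have h3 : 2 * (Nat.card G : ℝ) * (quadInv s).re - 2 * (Nat.card G : ℝ) * (Pool.Agent.H82.CO.extInv s).re =
      2 * ∑ g : G, (chi s (g ^ 2)).re := by
    have hnC : (Nat.card G : ℂ) ≠ 0 := by exact_mod_cast hn.ne'
    have h4 : (2 * (Nat.card G : ℂ)) * quadInv s - (2 * (Nat.card G : ℂ)) * Pool.Agent.H82.CO.extInv s =
        2 * ∑ g : G, chi s (g ^ 2) := by
      unfold Pool.Agent.H82.CO.quadInv Pool.Agent.H82.CO.extInv
      rw [← mul_assoc, ← mul_assoc, mul_one_div, div_self (mul_ne_zero two_ne_zero hnC), one_mul, one_mul,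
        ← Finset.sum_sub_distrib, Finset.mul_sum]
      exact Finset.sum_congr rfl fun g _ => by ring
    have h5 := congrArg Complex.re h4
    have h6 : ∀ w : ℂ, ((2 * (Nat.card G : ℂ)) * w).re = 2 * (Nat.card G : ℝ) * w.re := by
      intro w
      have h7 : (2 * (Nat.card G : ℂ)) = ((2 * (Nat.card G : ℝ) : ℝ) : ℂ) := by push_cast; ring
      rw [h7, Complex.re_ofReal_mul]
    have h7 : (2 * ∑ g : G, chi s (g ^ 2)).re = 2 * ∑ g : G, (chi s (g ^ 2)).re := by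
      have h8 : (2 : ℂ) = ((2 : ℝ) : ℂ) := by push_cast; ring
      rw [h8, Complex.re_ofReal_mul, Complex.re_sum]
    rw [Complex.sub_re, h6, h6, h7] at h5
    exact h5
  rw [Complex.add_re] at h1
  have h4 : (Nat.card G : ℝ) * (-1) ≤
      (Nat.card G : ℝ) * ((quadInv s).re - (Pool.Agent.H82.CO.extInv s).re) := by linarith
  have h5 := le_of_mul_le_mul_left h4 hn
  linarith

/-- four or five branch points -/
theorem four_five : ∃ C : ℕ, ∀ (G : Type) [Group G] [Fintype G] (N : ℕ) (_hN : 4 ≤ N) (_hN5 : N ≤ 5)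
    (s : Fin N → G) (_hs : ∀ i, s i ≠ 1)
    (_hprod : (List.ofFn s).prod = 1) (_hgen : Subgroup.closure (Set.range s) = ⊤)
    (_hg : 1 < genus s), (Nat.card G : ℝ) ≤ C * ((quadInv s).re + 1) := by
  obtain ⟨C, hC⟩ := nonab_lin
  refine ⟨C + 100, fun G _ _ N hN hN5 s hs hprod hgen hg => ?_⟩
  have hd : 0 ≤ (quadInv s).re := by
    obtain ⟨E, _, _, _, σ, -, h⟩ := Pool.Agent.H11.GQ.exists_chi s hprod hgen
    rw [← h, Complex.natCast_re]
    exact Nat.cast_nonneg _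
  have hC0 : (0 : ℝ) ≤ C := Nat.cast_nonneg _
  push_cast
  by_cases hna : ∃ a b : G, a * b ≠ b * a
  · have h1 := hC G N hN hN5 s hs hna hprod hgen hg
    linarith
  push Not at hna
  have h2 : 0 ≤ (C : ℝ) * ((quadInv s).re + 1) := mul_nonneg hC0 (by linarith)
  rcases (by omega : N = 4 ∨ N = 5) with h4 | h5
  · subst h4
    have h1 := Pool.Agent.H10.AB.abelian_four hna s hs hprod hgen
    linarith
  · subst h5
    have h1 := ab_five s hs hna hgen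
    linarith

/-- The codimension grows at least linearly with the genus. -/
theorem main : ∃ ε : ℝ, 0 < ε ∧ ∀ (G : Type) [Group G] [Fintype G] (N : ℕ) (_hN : 4 ≤ N)
    (s : Fin N → G) (_hs : ∀ i, s i ≠ 1)
    (_hprod : (List.ofFn s).prod = 1) (_hgen : Subgroup.closure (Set.range s) = ⊤)
    (_hg : 1 < genus s), ε * genus s - 4 ≤ (quadInv s).re - ((N : ℝ) - 3) := by
  obtain ⟨C, hC⟩ := four_five
  have hC0 : (0 : ℝ) ≤ C := Nat.cast_nonneg _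
  refine ⟨1 / (1000 * (C + 1)), by positivity, fun G _ _ N hN s hs hprod hgen hg => ?_⟩
  have he : 1 / (1000 * ((C : ℝ) + 1)) ≤ 1 / 1000 :=
    one_div_le_one_div_of_le (by norm_num) (by linarith)
  rcases Nat.lt_or_ge N 6 with h | h
  · have hN5 : N ≤ 5 := by omega
    have h1 := hC G N hN hN5 s hs hprod hgen hg
    have h2 := genus_le s
    have hNR : (N : ℝ) ≤ 5 := by exact_mod_cast hN5
    have h3 : genus s ≤ 1 + 3 / 2 * (Nat.card G : ℝ) := by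
      have h4 : (Nat.card G : ℝ) * ((N : ℝ) - 2) ≤ (Nat.card G : ℝ) * 3 :=
        mul_le_mul_of_nonneg_left (by linarith) (Nat.cast_nonneg _)
      linarith
    have hd : 0 ≤ (quadInv s).re := by
      obtain ⟨E, _, _, _, σ, -, h⟩ := Pool.Agent.H11.GQ.exists_chi s hprod hgen
      rw [← h, Complex.natCast_re]
      exact Nat.cast_nonneg _
    have h4 : genus s ≤ 1000 * ((C : ℝ) + 1) * ((quadInv s).re + 1) := by
      have h5 : 0 ≤ (C : ℝ) * (quadInv s).re := mul_nonneg hC0 hd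
      nlinarith
    have h5 : 1 / (1000 * ((C : ℝ) + 1)) * genus s ≤ (quadInv s).re + 1 := by
      rw [one_div_mul_eq_div, div_le_iff₀ (by positivity)]
      linarith
    linarith
  · have h1 := big6 s hs h
    have h2 : 1 / (1000 * ((C : ℝ) + 1)) * genus s ≤ 1 / 1000 * genus s :=
      mul_le_mul_of_nonneg_right he (by linarith)
    linarith

end Pool.Agent.H6.LG
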